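import Mathlib

namespace Pool.Agent.Results.MP_691546_co.No

open Finset

variable {V : Type} [Fintype V] [DecidableEq V]

/-- `D` is dominating: every vertex outside `D` lies in an edge whose other vertices are in `D`. -/
def Dominating (E : Finset (Finset V)) (D : Finset V) : Prop :=
  ∀ v, v ∉ D → ∃ e ∈ E, v ∈ e ∧ e.erase v ⊆ D

/-- The number of `t`-sets all of whose `r`-subsets are edges. -/
def cliques (E : Finset (Finset V)) (r t : ℕ) : ℕ :=
  ((powersetCard t univ).filter fun T => ∀ e ∈ powersetCard r T, e ∈ E).card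

def Good (e : Finset (Fin 12)) : Prop := ∀ i : Fin 3, ∃ v : Fin 12, v ∉ e ∧ v.1 % 3 = i

instance : DecidablePred Good := fun e => by unfold Good; infer_instance

def H : Finset (Finset (Fin 12)) := (powersetCard 8 univ).filter Good

theorem mem_H (e : Finset (Fin 12)) : e ∈ H ↔ e.card = 8 ∧ Good e := by
  simp [H]

theorem result : ∃ E : Finset (Finset (Fin 12)), (∀ e ∈ E, e.card = 8) ∧ (∀ v, ∃ e ∈ E, v ∈ e) ∧
    (∀ S : Finset (Fin 12), Dominating E Sᶜ → S.card ≤ 4) ∧
    Nat.choose (4 + 8 - 1) 9 < cliques E 8 9 := by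
  refine ⟨H, fun e he => ((mem_H e).mp he).1, fun v => ?_, fun S hS => ?_, ?_⟩
  · by_cases h : v.1 < 8
    · exact ⟨{0, 1, 2, 3, 4, 5, 6, 7}, (mem_H _).mpr (by decide), by revert v; decide⟩
    · exact ⟨{4, 5, 6, 7, 8, 9, 10, 11}, (mem_H _).mpr (by decide), by revert v; decide⟩
  · by_contra hc
    have key : ∀ v ∈ S, S.card ≤ 5 ∧ ∀ i : Fin 3, ∃ w ∈ S.erase v, w.1 % 3 = i := by
      intro v hv
      obtain ⟨e, he, h1, h2⟩ := hS v (by simpa using hv)
      obtain ⟨h3, h4⟩ := (mem_H e).mp he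
      have h5 : S.erase v ⊆ eᶜ := fun x hx => mem_compl.mpr fun h =>
        mem_compl.mp (h2 (mem_erase.mpr ⟨(mem_erase.mp hx).1, h⟩)) (mem_erase.mp hx).2
      have h6 : eᶜ.card = 4 := by rw [card_compl, h3]; rfl
      have h7 := card_erase_add_one hv
      have h8 := card_le_card h5
      rw [eq_of_subset_of_card_le h5 (by omega)]
      exact ⟨by omega, fun i => (h4 i).imp fun w h => ⟨mem_compl.mpr h.1, h.2⟩⟩
    obtain ⟨v, hv⟩ : S.Nonempty := card_pos.mp (by omega)
    have h1 : ∀ i : Fin 3, 2 ≤ (S.filter fun w : Fin 12 => w.1 % 3 = i.1).card := by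
      intro i
      obtain ⟨a, ha, h1⟩ := (key v hv).2 i
      obtain ⟨b, hb, h2⟩ := (key a (mem_erase.mp ha).2).2 i
      exact one_lt_card.mpr ⟨a, mem_filter.mpr ⟨(mem_erase.mp ha).2, h1⟩, b,
        mem_filter.mpr ⟨(mem_erase.mp hb).2, h2⟩, (mem_erase.mp hb).1.symm⟩
    have h2 := card_eq_sum_card_fiberwise (s := S) (t := range 3) (f := fun w : Fin 12 => w.1 % 3)
      fun w _ => mem_range.mpr (Nat.mod_lt _ (by norm_num))
    have a0 := h1 0
    have a1 := h1 1
    have a2 := h1 2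
    have := (key v hv).1
    simp only [sum_range_succ, sum_range_zero, Fin.val_zero, Fin.val_one, Fin.val_two] at *
    omega
  · refine lt_of_lt_of_le (show _ < ((powersetCard 9 univ).filter Good).card by decide +kernel)
      (card_le_card fun T hT => ?_)
    obtain ⟨h1, h2⟩ := mem_filter.mp hT
    refine mem_filter.mpr ⟨h1, fun e he => (mem_H e).mpr ⟨(mem_powersetCard.mp he).2, fun i => ?_⟩⟩
    exact (h2 i).imp fun w h => ⟨fun q => h.1 ((mem_powersetCard.mp he).1 q), h.2⟩

end Pool.Agent.Results.MP_691546_co.No
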